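import Pool.Agent.Run7.h425.RN.Iface

/-!
# Project RN (helper425), piece MATR (helper888)
-/

set_option autoImplicit false

open MeasureTheory Real Pool.Agent.Run7.h425.RN
open scoped ENNReal

namespace Pool.Agent.Run7.h888.RN

lemma pw_pos {r y : ℝ} (hy : y ≠ 0) : pw r y = ENNReal.ofReal (|y| ^ (-r)) := by
  unfold pw
  rw [ENNReal.ofReal_rpow_of_pos (abs_pos.2 hy)]

lemma pw_zero {r : ℝ} (hr : 0 < r) : pw r 0 = ⊤ := by
  unfold pw
  rw [abs_zero, ENNReal.ofReal_zero, ENNReal.zero_rpow_of_neg (by linarith)]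

lemma abs_cs_le (x : Tc) : |cs x| ≤ 1 := by
  unfold cs
  refine (Complex.abs_re_le_norm _).trans ?_
  rw [fourier_apply, Circle.norm_coe]

/-- comparison of negative powers -/
lemma pw_le_of_le {r R : ℝ} (hr : 0 < r) {κ y c : ℝ} (hκ : 0 ≤ κ) (hc : 0 < c) (hR : R = r * 2)
    (h : c * y ^ 2 ≤ κ) : pw r κ ≤ ENNReal.ofReal (c ^ (-r)) * pw R y := by
  by_cases hy : y = 0
  · rw [hy, pw_zero (by rw [hR]; linarith), ENNReal.mul_top]
    · exact le_top
    · rw [Ne, ENNReal.ofReal_eq_zero, not_le]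
      positivity
  · have hy2 : 0 < y ^ 2 := by positivity
    have hcy : 0 < c * y ^ 2 := by positivity
    have hκ0 : 0 < κ := lt_of_lt_of_le hcy h
    rw [pw_pos hκ0.ne', pw_pos hy, ← ENNReal.ofReal_mul (by positivity), abs_of_pos hκ0]
    apply ENNReal.ofReal_le_ofReal
    have h1 : κ ^ (-r) ≤ (c * y ^ 2) ^ (-r) :=
      Real.rpow_le_rpow_of_nonpos hcy h (by linarith)
    refine h1.trans (le_of_eq ?_)
    rw [Real.mul_rpow hc.le hy2.le]
    congr 1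
    rw [← sq_abs, ← Real.rpow_natCast, ← Real.rpow_mul (abs_nonneg _), hR]
    congr 1
    push_cast
    ring

theorem t_MATR (hCOS : S_COS) : S_MATR := by
  intro a ha ρ u hρ hu
  have hρ0 : 0 < ‖ρ‖ := norm_pos_iff.2 hρ
  have hu0 : 0 < ‖u‖ := norm_pos_iff.2 hu
  have ha0 : 0 < |a| := by linarith
  have hπ3 : 3 < π := Real.pi_gt_three
  have hπ4 : π < 3.15 := Real.pi_lt_d2
  have u1 : |u.1| ≤ ‖u‖ := norm_fst_le u
  have u2 : |u.2| ≤ ‖u‖ := norm_snd_le u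
  have habs : |2 * π * a| = 2 * π * |a| := by
    rw [abs_mul, abs_of_pos (by positivity)]
  set c : ℝ := ‖ρ‖ / (20 * |a| * ‖u‖) with hc
  have hc0 : 0 < c := by positivity
  have step1 : ∀ x₁ : Tc, ∫⁻ x₂ : Tc, pw (1 / 8) (ρ.1 * (g a x₂ * (g a x₁ * u.1 - u.2) - u.1) +
      ρ.2 * (g a x₁ * u.1 - u.2)) ≤
      ENNReal.ofReal (8 * c ^ (-(1 / 8) : ℝ)) *
        pw (1 / 4) (2 * π * a * u.1 * cs x₁ + (2 * u.1 - u.2)) := by
    intro x₁
    have e2 : 2 * π * a * u.1 * cs x₁ + (2 * u.1 - u.2) = g a x₁ * u.1 - u.2 := by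
      unfold g; ring
    rw [e2]
    set w := g a x₁ * u.1 - u.2 with hw
    have e : ∀ x₂ : Tc, ρ.1 * (g a x₂ * w - u.1) + ρ.2 * w =
        (2 * π * a * (ρ.1 * w)) * cs x₂ + (ρ.1 * (2 * w - u.1) + ρ.2 * w) := by
      intro x₂; unfold g; ring
    simp_rw [e]
    refine (hCOS (1 / 8) (by norm_num) (by norm_num) _ _).trans ?_
    set B := ρ.1 * (2 * w - u.1) + ρ.2 * w with hB
    set κ := max |2 * π * a * (ρ.1 * w)| |B| with hκ
    have hg : |g a x₁| ≤ 2 + 2 * π * |a| := by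
      unfold g
      have h1 : |2 * π * a * cs x₁| ≤ 2 * π * |a| := by
        rw [abs_mul, habs]
        have := abs_cs_le x₁
        have h3 : 0 ≤ 2 * π * |a| := by positivity
        nlinarith
      have := abs_add_le (2 : ℝ) (2 * π * a * cs x₁)
      rw [abs_of_pos (show (0 : ℝ) < 2 by norm_num)] at this
      linarith
    have hw1 : |w| ≤ 10 * |a| * ‖u‖ := by
      have h1 : |w| ≤ |g a x₁| * |u.1| + |u.2| := by
        rw [hw, ← abs_mul]
        exact abs_sub _ _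
      have h2 : |g a x₁| * |u.1| ≤ (2 + 2 * π * |a|) * ‖u‖ :=
        mul_le_mul hg u1 (abs_nonneg _) (by positivity)
      have h3 : (3 + 2 * π * |a|) * ‖u‖ ≤ 10 * |a| * ‖u‖ := by
        apply mul_le_mul_of_nonneg_right _ hu0.le
        nlinarith
      linarith
    have hu10 : |u.1| ≤ 10 * |a| * ‖u‖ := by
      refine u1.trans ?_
      nlinarith
    have hκ0 : 0 ≤ κ := le_max_of_le_left (abs_nonneg _)
    have k1 : 6 * |ρ.1 * w| ≤ κ := by
      refine le_trans ?_ (le_max_left _ _)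
      rw [abs_mul (2 * π * a), habs]
      have : 6 ≤ 2 * π * |a| := by nlinarith
      exact mul_le_mul_of_nonneg_right this (abs_nonneg _)
    have k2 : |B| ≤ κ := le_max_right _ _
    have k3 : ‖ρ‖ * w ^ 2 ≤ 20 * |a| * ‖u‖ * κ := by
      have hρm : ‖ρ‖ = max |ρ.1| |ρ.2| := Prod.norm_def ρ
      rw [hρm]
      set N := 10 * |a| * ‖u‖ with hN
      have hN0 : 0 ≤ N := by positivity
      rcases max_cases |ρ.1| |ρ.2| with ⟨h, _⟩ | ⟨h, _⟩
      · rw [h]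
        have : |ρ.1| * w ^ 2 = |ρ.1 * w| * |w| := by rw [abs_mul, ← sq_abs w]; ring
        rw [this]
        calc |ρ.1 * w| * |w| ≤ κ * N :=
              mul_le_mul (by linarith [abs_nonneg (ρ.1 * w)]) hw1 (abs_nonneg _) hκ0
          _ ≤ 20 * |a| * ‖u‖ * κ := by
              rw [hN]
              have : 0 ≤ |a| * ‖u‖ * κ := by positivity
              linarith
      · rw [h]
        have e3 : |ρ.2| * w ^ 2 = |B - ρ.1 * (2 * w - u.1)| * |w| := by
          rw [show B - ρ.1 * (2 * w - u.1) = ρ.2 * w by rw [hB]; ring, abs_mul, ← sq_abs w]; ring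
        rw [e3, ← abs_mul]
        have e4 : (B - ρ.1 * (2 * w - u.1)) * w = B * w - (ρ.1 * w) * (2 * w - u.1) := by ring
        rw [e4]
        have h5 : |2 * w - u.1| ≤ 3 * N := by
          rw [abs_le] at hw1 hu10 ⊢
          constructor <;> linarith [hw1.1, hw1.2, hu10.1, hu10.2]
        have h6 : |B * w| ≤ κ * N := by
          rw [abs_mul]; exact mul_le_mul k2 hw1 (abs_nonneg _) hκ0
        have h7 : |(ρ.1 * w) * (2 * w - u.1)| ≤ κ / 6 * (3 * N) := by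
          rw [abs_mul]; exact mul_le_mul (by linarith) h5 (abs_nonneg _) (by positivity)
        have h8 := abs_sub (B * w) ((ρ.1 * w) * (2 * w - u.1))
        have h9 : 0 ≤ |a| * ‖u‖ * κ := by positivity
        have h10 : κ * N = 10 * (|a| * ‖u‖ * κ) := by rw [hN]; ring
        nlinarith
    have k4 : c * w ^ 2 ≤ κ := by
      rw [hc, div_mul_eq_mul_div, div_le_iff₀ (by positivity)]
      linarith
    have k5 := pw_le_of_le (r := 1 / 8) (R := 1 / 4) (by norm_num) hκ0 hc0 (by norm_num) k4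
    calc 8 * pw (1 / 8) κ ≤ 8 * (ENNReal.ofReal (c ^ (-(1 / 8) : ℝ)) * pw (1 / 4) w) := by gcongr
      _ = ENNReal.ofReal (8 * c ^ (-(1 / 8) : ℝ)) * pw (1 / 4) w := by
          rw [ENNReal.ofReal_mul (by norm_num), ← mul_assoc]
          congr 2
          norm_num
  refine (lintegral_mono step1).trans ?_
  rw [lintegral_const_mul' _ _ ENNReal.ofReal_ne_top]
  have step2 := hCOS (1 / 4) (by norm_num) (by norm_num) (2 * π * a * u.1) (2 * u.1 - u.2)
  -- the maximum is at least half of the norm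
  have hM : ‖u‖ / 2 ≤ max |2 * π * a * u.1| |2 * u.1 - u.2| := by
    have h1 : 6 * |u.1| ≤ |2 * π * a * u.1| := by
      rw [abs_mul, habs]
      have : 6 ≤ 2 * π * |a| := by nlinarith
      exact mul_le_mul_of_nonneg_right this (abs_nonneg _)
    by_cases h : ‖u‖ / 12 ≤ |u.1|
    · refine le_trans ?_ (le_max_left _ _)
      linarith
    · push Not at h
      refine le_trans ?_ (le_max_right _ _)
      have hum : ‖u‖ = max |u.1| |u.2| := Prod.norm_def u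
      have h2 : ‖u‖ = |u.2| := by
        rcases max_cases |u.1| |u.2| with ⟨h', _⟩ | ⟨h', _⟩
        · rw [h'] at hum; linarith
        · rw [hum, h']
      have h3 : |u.2| - 2 * |u.1| ≤ |2 * u.1 - u.2| := by
        have := abs_sub_abs_le_abs_sub u.2 (2 * u.1)
        rw [abs_mul, abs_of_pos (show (0 : ℝ) < 2 by norm_num), abs_sub_comm] at this
        linarith
      linarith
  set M := max |2 * π * a * u.1| |2 * u.1 - u.2| with hMd
  have hM0 : 0 < M := by linarith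
  have hpM : pw (1 / 4) M ≤ ENNReal.ofReal ((‖u‖ / 2) ^ (-(1 / 4) : ℝ)) := by
    rw [pw_pos hM0.ne', abs_of_pos hM0]
    apply ENNReal.ofReal_le_ofReal
    exact Real.rpow_le_rpow_of_nonpos (by positivity) hM (by norm_num)
  have hfin : ENNReal.ofReal (8 * c ^ (-(1 / 8) : ℝ)) *
      (8 * ENNReal.ofReal ((‖u‖ / 2) ^ (-(1 / 4) : ℝ))) ≤
      ENNReal.ofReal (128 * |a|) * (pw (1 / 8) ‖ρ‖ * pw (1 / 8) ‖u‖) := by
    rw [pw_pos hρ0.ne', pw_pos hu0.ne', abs_of_pos hρ0, abs_of_pos hu0,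
      ← ENNReal.ofReal_mul (by positivity), ← ENNReal.ofReal_mul (by positivity),
      show (8 : ℝ≥0∞) = ENNReal.ofReal 8 by norm_num,
      ← ENNReal.ofReal_mul (by positivity), ← ENNReal.ofReal_mul (by positivity)]
    apply ENNReal.ofReal_le_ofReal
    have e1 : c ^ (-(1 / 8) : ℝ) = ‖ρ‖ ^ (-(1 / 8) : ℝ) * (20 ^ (1 / 8 : ℝ) * |a| ^ (1 / 8 : ℝ) *
        ‖u‖ ^ (1 / 8 : ℝ)) := by
      rw [hc, Real.div_rpow hρ0.le (by positivity), Real.rpow_neg (show 0 ≤ 20 * |a| * ‖u‖ by positivity),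
        div_inv_eq_mul, Real.mul_rpow (by positivity) hu0.le, Real.mul_rpow (by norm_num) ha0.le]
    have e2 : (‖u‖ / 2) ^ (-(1 / 4) : ℝ) = ‖u‖ ^ (-(1 / 4) : ℝ) * 4 ^ (1 / 8 : ℝ) := by
      rw [Real.div_rpow hu0.le (by norm_num), div_eq_mul_inv]
      congr 1
      rw [← Real.rpow_neg (by norm_num), neg_neg, show (4 : ℝ) = 2 ^ (2 : ℝ) by norm_num,
        ← Real.rpow_mul (by norm_num)]
      norm_num
    have e3 : ‖u‖ ^ (1 / 8 : ℝ) * ‖u‖ ^ (-(1 / 4) : ℝ) = ‖u‖ ^ (-(1 / 8) : ℝ) := by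
      rw [← Real.rpow_add hu0]; norm_num
    have e4 : (20 : ℝ) ^ (1 / 8 : ℝ) * 4 ^ (1 / 8 : ℝ) ≤ 2 := by
      rw [← Real.mul_rpow (by norm_num) (by norm_num)]
      have : (2 : ℝ) = (256 : ℝ) ^ (1 / 8 : ℝ) := by
        rw [show (256 : ℝ) = 2 ^ (8 : ℝ) by norm_num, ← Real.rpow_mul (by norm_num)]
        norm_num
      rw [this]
      exact Real.rpow_le_rpow (by norm_num) (by norm_num) (by norm_num)
    have e5 : |a| ^ (1 / 8 : ℝ) ≤ |a| := by
      conv_rhs => rw [← Real.rpow_one |a|]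
      exact Real.rpow_le_rpow_of_exponent_le ha (by norm_num)
    rw [e1, e2]
    calc 8 * (‖ρ‖ ^ (-(1 / 8) : ℝ) * (20 ^ (1 / 8 : ℝ) * |a| ^ (1 / 8 : ℝ) * ‖u‖ ^ (1 / 8 : ℝ))) *
          (8 * (‖u‖ ^ (-(1 / 4) : ℝ) * 4 ^ (1 / 8 : ℝ)))
        = 64 * (20 ^ (1 / 8 : ℝ) * 4 ^ (1 / 8 : ℝ)) * |a| ^ (1 / 8 : ℝ) *
          (‖ρ‖ ^ (-(1 / 8) : ℝ) * (‖u‖ ^ (1 / 8 : ℝ) * ‖u‖ ^ (-(1 / 4) : ℝ))) := by ring
      _ ≤ 64 * 2 * |a| * (‖ρ‖ ^ (-(1 / 8) : ℝ) * (‖u‖ ^ (1 / 8 : ℝ) * ‖u‖ ^ (-(1 / 4) : ℝ))) := by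
          gcongr
      _ = 128 * |a| * (‖ρ‖ ^ (-(1 / 8) : ℝ) * ‖u‖ ^ (-(1 / 8) : ℝ)) := by rw [e3]; ring
  refine le_trans ?_ hfin
  gcongr
  exact step2.trans (by gcongr)

end Pool.Agent.Run7.h888.RN
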