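import Pool.Agent.Run7.h425.RN.Iface

/-!
# Project RN (helper425), pieces SWAP and COC (helper888)
-/

set_option autoImplicit false

open MeasureTheory Pool.Agent.Run7.h425.RN
open scoped ENNReal

namespace Pool.Agent.Run7.h888.RN

lemma lp {α β : Type} [MeasurableSpace α] [MeasurableSpace β] (μ : Measure α) (ν : Measure β)
    [SFinite ν] (f : α × β → ℝ≥0∞) (hf : Measurable f) :
    ∫⁻ z, f z ∂(μ.prod ν) = ∫⁻ x, ∫⁻ y, f (x, y) ∂ν ∂μ := lintegral_prod f hf.aemeasurable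

theorem t_SWAP : S_SWAP := by
  intro ν _ F hF
  have hF1 : Measurable (fun z : (Tc × Tc) × (Tc × Tc × (ℕ → Tc)) =>
      F (z.1.1, z.1.2, z.2.1, z.2.2.1, z.2.2.2)) := hF.comp (by fun_prop)
  have hF2 : Measurable (fun z : (Tc × Tc × (ℕ → Tc)) × (Tc × Tc) =>
      F (z.2.1, z.2.2, z.1.1, z.1.2.1, z.1.2.2)) := hF.comp (by fun_prop)
  -- inner integrals
  have i1 : ∀ x₁ x₂ : Tc, ∫⁻ r : Tc × Tc × (ℕ → Tc), F (x₁, x₂, r.1, r.2.1, r.2.2)
      ∂((volume : Measure Tc).prod ((volume : Measure Tc).prod (PP ν))) =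
      ∫⁻ x₃ : Tc, ∫⁻ x₄ : Tc, ∫⁻ ω, F (x₁, x₂, x₃, x₄, ω) ∂(PP ν) := by
    intro x₁ x₂
    have h : Measurable (fun r : Tc × Tc × (ℕ → Tc) => F (x₁, x₂, r.1, r.2.1, r.2.2)) :=
      hF.comp (by fun_prop)
    rw [lp _ _ _ h]
    congr 1
    funext x₃
    have h' : Measurable (fun r : Tc × (ℕ → Tc) => F (x₁, x₂, x₃, r.1, r.2)) :=
      hF.comp (by fun_prop)
    exact lp _ _ _ h'
  have i2 : ∀ r : Tc × Tc × (ℕ → Tc), ∫⁻ p : Tc × Tc, F (p.1, p.2, r.1, r.2.1, r.2.2)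
      ∂((volume : Measure Tc).prod (volume : Measure Tc)) =
      ∫⁻ x₁ : Tc, ∫⁻ x₂ : Tc, F (x₁, x₂, r.1, r.2.1, r.2.2) := by
    intro r
    have h : Measurable (fun p : Tc × Tc => F (p.1, p.2, r.1, r.2.1, r.2.2)) :=
      hF.comp (by fun_prop)
    exact lp _ _ _ h
  have L : ∫⁻ p : Tc × Tc, ∫⁻ r : Tc × Tc × (ℕ → Tc), F (p.1, p.2, r.1, r.2.1, r.2.2)
      ∂((volume : Measure Tc).prod ((volume : Measure Tc).prod (PP ν)))
      ∂((volume : Measure Tc).prod (volume : Measure Tc)) =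
      ∫⁻ x₁ : Tc, ∫⁻ x₂ : Tc, ∫⁻ x₃ : Tc, ∫⁻ x₄ : Tc, ∫⁻ ω, F (x₁, x₂, x₃, x₄, ω) ∂(PP ν) := by
    have hm : Measurable (fun p : Tc × Tc => ∫⁻ r : Tc × Tc × (ℕ → Tc),
        F (p.1, p.2, r.1, r.2.1, r.2.2)
        ∂((volume : Measure Tc).prod ((volume : Measure Tc).prod (PP ν)))) :=
      Measurable.lintegral_prod_right' hF1
    rw [lp _ _ _ hm]
    congr 1
    funext x₁
    congr 1
    funext x₂
    exact i1 x₁ x₂
  have R : ∫⁻ r : Tc × Tc × (ℕ → Tc), ∫⁻ p : Tc × Tc, F (p.1, p.2, r.1, r.2.1, r.2.2)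
      ∂((volume : Measure Tc).prod (volume : Measure Tc))
      ∂((volume : Measure Tc).prod ((volume : Measure Tc).prod (PP ν))) =
      ∫⁻ x₃ : Tc, ∫⁻ x₄ : Tc, ∫⁻ ω, ∫⁻ x₁ : Tc, ∫⁻ x₂ : Tc, F (x₁, x₂, x₃, x₄, ω)
        ∂volume ∂volume ∂(PP ν) := by
    have hm : Measurable (fun r : Tc × Tc × (ℕ → Tc) => ∫⁻ p : Tc × Tc,
        F (p.1, p.2, r.1, r.2.1, r.2.2) ∂((volume : Measure Tc).prod (volume : Measure Tc))) :=
      Measurable.lintegral_prod_right' hF2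
    rw [lp _ _ _ hm]
    congr 1
    funext x₃
    have hm' : Measurable (fun r : Tc × (ℕ → Tc) => ∫⁻ p : Tc × Tc,
        F (p.1, p.2, x₃, r.1, r.2) ∂((volume : Measure Tc).prod (volume : Measure Tc))) :=
      hm.comp (measurable_prodMk_left (x := x₃))
    refine (lp _ _ _ hm').trans ?_
    congr 1
    funext x₄
    congr 1
    funext ω
    exact i2 (x₃, x₄, ω)
  rw [← L, ← R]
  exact lintegral_lintegral_swap hF1.aemeasurable

theorem t_COC : S_COC := by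
  intro a p
  constructor
  · intro ω n m
    induction m with
    | zero => exact ⟨rfl, by rw [Nat.add_zero]; ext <;> rfl⟩
    | succ m ih =>
      have h1 : orb a ω p (n + (m + 1)) = orb a (sh n ω) (orb a ω p n) (m + 1) := by
        change nxt a (orb a ω p (n + m)) (ω (n + m)) =
          nxt a (orb a (sh n ω) (orb a ω p n) m) (sh n ω m)
        rw [ih.1]
        rfl
      refine ⟨h1, ?_⟩
      change (J (g a (orb a ω p (n + m)).1)).comp (A a ω p (n + m)) =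
        ((J (g a (orb a (sh n ω) (orb a ω p n) m).1)).comp
          (A a (sh n ω) (orb a ω p n) m)).comp (A a ω p n)
      rw [ih.1, ih.2]
      rfl
  · intro ω ω' n
    induction n with
    | zero => intro _; exact ⟨rfl, rfl⟩
    | succ n ih =>
      intro h
      obtain ⟨h1, h2⟩ := ih (fun i hi => h i (by omega))
      constructor
      · change nxt a (orb a ω p n) (ω n) = nxt a (orb a ω' p n) (ω' n)
        rw [h1, h n (by omega)]
      · change (J (g a (orb a ω p n).1)).comp (A a ω p n) =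
          (J (g a (orb a ω' p n).1)).comp (A a ω' p n)
        rw [h1, h2]

end Pool.Agent.Run7.h888.RN
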